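import Mathlib

set_option autoImplicit false

namespace Pool.Agent.H.MP_12bd27_co

open Set MeasureTheory

noncomputable def z6 : ℂ := ⟨1 / 2, √3 / 2⟩

def IsTri (V : Set ℂ) : Prop := ∃ a u : ℂ, ‖u‖ = 1 ∧ V = {a, a + u, a + z6 * u}

def IsHex (V : Set ℂ) : Prop := ∃ c u : ℂ, ‖u‖ = 1 ∧ V = range fun k : Fin 6 => c + z6 ^ (k : ℕ) * u

def EdgeToEdge (T : Set (Set ℂ)) : Prop :=
  (∀ V ∈ T, IsTri V ∨ IsHex V) ∧ ∀ V ∈ T, ∀ W ∈ T, V ≠ W →
    volume (convexHull ℝ V ∩ convexHull ℝ W) = 0 ∧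
      convexHull ℝ V ∩ convexHull ℝ W = convexHull ℝ (V ∩ W)

def body (T : Set (Set ℂ)) : Set ℂ := ⋃ V ∈ T, convexHull ℝ V

def tris (T : Set (Set ℂ)) (v : ℂ) : Set (Set ℂ) := {V ∈ T | IsTri V ∧ v ∈ V}

def hexs (T : Set (Set ℂ)) (v : ℂ) : Set (Set ℂ) := {V ∈ T | IsHex V ∧ v ∈ V}

def IsPatch (T : Set (Set ℂ)) : Prop :=
  T.Finite ∧ EdgeToEdge T ∧ Nonempty (body T ≃ₜ Metric.closedBall (0 : ℂ) 1) ∧
    ∀ v, (tris T v).encard ≤ 2 ∧ (hexs T v).encard ≤ 2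

def IsTiling (T : Set (Set ℂ)) : Prop :=
  EdgeToEdge T ∧ body T = univ ∧
    ∀ V ∈ T, ∀ v ∈ V, (tris T v).encard = 2 ∧ (hexs T v).encard = 2

lemma s3 : √3 * √3 = 3 := Real.mul_self_sqrt (by norm_num)
lemma s3pos : 0 < √3 := Real.sqrt_pos.2 (by norm_num)

lemma z6sq : z6 * z6 = z6 - 1 := by
  apply Complex.ext <;> simp [z6]
  · nlinarith [s3]
  · ring

noncomputable def P (p w : ℂ) (m : ℤ × ℤ) : ℂ := p + ((m.1 : ℂ) + (m.2 : ℂ) * z6) * w

def mulL (d m : ℤ × ℤ) : ℤ × ℤ := (d.1 * m.1 - d.2 * m.2, d.1 * m.2 + d.2 * m.1 + d.2 * m.2)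

def NN (d : ℤ × ℤ) : ℤ := d.1 * d.1 + d.1 * d.2 + d.2 * d.2

lemma P_P (p w : ℂ) (s t m : ℤ × ℤ) :
    P (P p w s) (P p w t - P p w s) m = P p w (s + mulL (t - s) m) := by
  simp only [P, mulL, Prod.fst_add, Prod.snd_add, Prod.fst_sub, Prod.snd_sub]
  push_cast
  linear_combination ((t.2 : ℂ) - s.2) * m.2 * w * z6sq

lemma norm_P (p w : ℂ) (hw : ‖w‖ = 1) (s t : ℤ × ℤ) :
    ‖P p w t - P p w s‖ ^ 2 = NN (t - s) := by
  have : P p w t - P p w s = (((t - s).1 : ℂ) + ((t - s).2 : ℂ) * z6) * w := by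
    simp only [P, Prod.fst_sub, Prod.snd_sub]; push_cast; ring
  rw [this, norm_mul, hw, mul_one, ← Complex.normSq_eq_norm_sq, Complex.normSq_apply]
  simp [z6, NN]
  nlinarith [s3]

def T0 : Finset (ℤ × ℤ) := {(0, 0), (1, 0), (0, 1)}
def H0 : Finset (ℤ × ℤ) := {(0, 0), (1, 0), (1, 1), (0, 2), (-1, 2), (-1, 1)}

lemma isTri_iff (V : Set ℂ) : IsTri V ↔ ∃ a u : ℂ, ‖u‖ = 1 ∧ V = P a u '' T0 := by
  have : ∀ a u : ℂ, P a u '' T0 = {a, a + u, a + z6 * u} := by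
    intro a u; simp [T0, image_insert_eq, P]
  simp only [IsTri, this]

lemma range6 (f : Fin 6 → ℂ) : range f = {f 4, f 5, f 0, f 1, f 2, f 3} := by
  ext x; simp only [mem_range, mem_insert_iff, mem_singleton_iff]
  constructor
  · rintro ⟨k, rfl⟩; fin_cases k <;> simp
  · rintro (rfl | rfl | rfl | rfl | rfl | rfl) <;> exact ⟨_, rfl⟩

lemma hexeq (c u : ℂ) :
    (range fun k : Fin 6 => c + z6 ^ (k : ℕ) * u) = P (c - z6 * u) u '' H0 := by
  rw [range6]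
  simp only [H0, Finset.coe_insert, Finset.coe_singleton, image_insert_eq, image_singleton, P]
  have h := z6sq
  congr 1
  · simp; linear_combination (z6 * z6 + z6) * u * h
  congr 1
  · simp; linear_combination (z6 * z6 * z6 + z6 * z6 - 1) * u * h
  congr 1
  · simp; ring
  congr 1
  · simp; ring
  congr 1
  · simp; linear_combination u * h
  congr 1
  · simp; linear_combination (z6 + 1) * u * h

lemma isHex_iff (V : Set ℂ) : IsHex V ↔ ∃ a u : ℂ, ‖u‖ = 1 ∧ V = P a u '' H0 := by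
  constructor
  · rintro ⟨c, u, hu, rfl⟩; exact ⟨_, u, hu, hexeq c u⟩
  · rintro ⟨a, u, hu, rfl⟩
    refine ⟨a + z6 * u, u, hu, ?_⟩
    rw [hexeq]; simp

def lf (S : Finset (ℤ × ℤ)) (s t : ℤ × ℤ) : Finset (ℤ × ℤ) := S.image fun m => s + mulL (t - s) m

lemma P_lf (p w : ℂ) (S : Finset (ℤ × ℤ)) (s t : ℤ × ℤ) :
    P (P p w s) (P p w t - P p w s) '' S = P p w '' lf S s t := by
  simp only [lf, Finset.coe_image, image_image, P_P]

lemma cls0 : ∀ S ∈ [T0, H0], ∀ s ∈ S, ∀ t ∈ S, NN (t - s) = 1 → lf S s t = S ∨ lf S t s = S := by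
  decide

lemma cls {V : Set ℂ} (S : Finset (ℤ × ℤ)) (hS : S ∈ [T0, H0]) {q u : ℂ} (hu : ‖u‖ = 1)
    (hV : V = P q u '' S) {a b : ℂ} (ha : a ∈ V) (hb : b ∈ V) (hab : ‖b - a‖ = 1) :
    V = P a (b - a) '' S ∨ V = P b (a - b) '' S := by
  subst hV
  obtain ⟨s, hs, rfl⟩ := ha
  obtain ⟨t, ht, rfl⟩ := hb
  have h1 := norm_P q u hu s t
  rw [hab] at h1
  have h2 : NN (t - s) = 1 := by exact_mod_cast (by rw [← h1]; norm_num : ((NN (t - s) : ℤ) : ℝ) = 1)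
  rcases cls0 S hS s hs t ht h2 with h | h
  · left; rw [P_lf, h]
  · right; rw [P_lf, h]

noncomputable def X (x : ℂ) : ℝ := x.re - x.im / √3
noncomputable def Y (x : ℂ) : ℝ := 2 * x.im / √3

lemma X_P (p : ℂ) (m : ℤ × ℤ) : X (P p 1 m) = X p + m.1 := by
  have := s3pos
  simp [X, P, z6]; field_simp; ring
lemma Y_P (p : ℂ) (m : ℤ × ℤ) : Y (P p 1 m) = Y p + m.2 := by
  have := s3pos
  simp [Y, P, z6]; field_simp

lemma P_inj (p : ℂ) : Function.Injective (P p 1) := by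
  intro s t h
  have h1 := congrArg X h
  have h2 := congrArg Y h
  rw [X_P, X_P] at h1
  rw [Y_P, Y_P] at h2
  apply Prod.ext
  · exact_mod_cast (by linarith : (s.1 : ℝ) = t.1)
  · exact_mod_cast (by linarith : (s.2 : ℝ) = t.2)

lemma PS_inj (p : ℂ) {S S' : Finset (ℤ × ℤ)} (h : P p 1 '' S = P p 1 '' S') : S = S' := by
  exact_mod_cast (image_injective.2 (P_inj p)) h

noncomputable def F (α β : ℤ) : ℂ →ₗ[ℝ] ℝ where
  toFun x := α * X x + β * Y x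
  map_add' x y := by simp [X, Y]; ring
  map_smul' c x := by simp [X, Y]; ring

lemma F_app (α β : ℤ) (x : ℂ) : F α β x = α * X x + β * Y x := rfl

lemma F_P (α β : ℤ) (p : ℂ) (m : ℤ × ℤ) :
    F α β (P p 1 m) = F α β p + ((α * m.1 + β * m.2 : ℤ) : ℝ) := by
  simp only [F_app, X_P, Y_P]; push_cast; ring

lemma fin_of {T : Set (Set ℂ)} (h : EdgeToEdge T) {V : Set ℂ} (hV : V ∈ T) : V.Finite := by
  rcases h.1 V hV with h | h
  · obtain ⟨a, u, -, rfl⟩ := (isTri_iff V).1 h; exact (Finset.finite_toSet _).image _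
  · obtain ⟨a, u, -, rfl⟩ := (isHex_iff V).1 h; exact (Finset.finite_toSet _).image _

lemma cvx (f : ℂ →ₗ[ℝ] ℝ) (c : ℝ) (b : ℂ) (hb : f b = c) : Convex ℝ {x | f x < c ∨ x = b} := by
  intro x hx y hy s t hs ht hst
  simp only [mem_ofPred_eq, map_add, map_smul, smul_eq_mul] at *
  have hc : c = s * c + t * c := by rw [← add_mul, hst, one_mul]
  rcases hx with hx | rfl <;> rcases hy with hy | rfl
  · left
    rcases hs.eq_or_lt with rfl | hs'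
    · simp at hst; subst hst; simpa using hy
    · nlinarith [mul_nonneg ht (sub_pos.2 hy).le, mul_pos hs' (sub_pos.2 hx)]
  · rcases hs.eq_or_lt with rfl | hs'
    · simp at hst; subst hst; simp
    · left; rw [hb]; nlinarith [mul_pos hs' (sub_pos.2 hx)]
  · rcases ht.eq_or_lt with rfl | ht'
    · simp at hst; subst hst; simp
    · left; rw [hb]; nlinarith [mul_pos ht' (sub_pos.2 hy)]
  · right; rw [← add_smul, hst, one_smul]

lemma nb0 {B : Set (Set ℂ)} (hf : B.Finite) (he : EdgeToEdge B) (hc : Convex ℝ (body B))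
    {V : Set ℂ} (hV : V ∈ B) {a b : ℂ} (ha : a ∈ V) (hb : b ∈ V) (hab : a ≠ b) (f : ℂ →ₗ[ℝ] ℝ)
    (hfb : f b = f a) (hfV : ∀ x ∈ V, f x < f a ∨ x = a ∨ x = b) {y : ℂ} (hy : y ∈ body B)
    (hfy : f a < f y) : ∃ W ∈ B, W ≠ V ∧ a ∈ W ∧ b ∈ W := by
  set q : ℂ := (1 / 2 : ℝ) • a + (1 / 2 : ℝ) • b with hq
  have hqV : q ∈ convexHull ℝ V :=
    convex_convexHull ℝ V (subset_convexHull ℝ V ha) (subset_convexHull ℝ V hb) (by norm_num)
      (by norm_num) (by norm_num)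
  have hfq : f q = f a := by simp only [hq, map_add, map_smul, smul_eq_mul, hfb]; ring
  have hqB : q ∈ body B := mem_biUnion hV hqV
  have hle : ∀ x ∈ convexHull ℝ V, f x ≤ f a := by
    intro x hx
    refine convexHull_min (t := {x | f x ≤ f a}) ?_ (convex_halfSpace_le f.isLinear _) hx
    intro x hx
    rcases hfV x hx with h | rfl | rfl
    · exact h.le
    · exact le_refl (f x)
    · exact hfb.le
  have hcl : IsClosed (⋃ W ∈ B \ {V}, convexHull ℝ W) :=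
    (hf.subset sdiff_subset).isClosed_biUnion fun W hW =>
      ((fin_of he hW.1).isCompact_convexHull ℝ).isClosed
  have hmem : q ∈ ⋃ W ∈ B \ {V}, convexHull ℝ W := by
    have ht : Filter.Tendsto (fun t : ℝ => q + t • (y - q)) (nhdsWithin 0 (Ioi 0)) (nhds q) := by
      have : Continuous (fun t : ℝ => q + t • (y - q)) := by fun_prop
      have h0 := this.tendsto 0
      simp only [zero_smul, add_zero] at h0
      exact h0.mono_left nhdsWithin_le_nhds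
    refine hcl.mem_of_tendsto ht ?_
    filter_upwards [Ioo_mem_nhdsGT (zero_lt_one' ℝ)] with t ht
    have h1 : q + t • (y - q) ∈ body B := hc.add_smul_sub_mem hqB hy ⟨ht.1.le, ht.2.le⟩
    obtain ⟨W, hW, h2⟩ := mem_iUnion₂.1 h1
    refine mem_iUnion₂.2 ⟨W, ⟨hW, ?_⟩, h2⟩
    rintro rfl
    have := hle _ h2
    simp only [map_add, map_smul, map_sub, smul_eq_mul, hfq] at this
    nlinarith [mul_pos ht.1 (sub_pos.2 hfy)]
  obtain ⟨W, ⟨hW, hWV⟩, h2⟩ := mem_iUnion₂.1 hmem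
  have hWV : W ≠ V := hWV
  have h3 : q ∈ convexHull ℝ (V ∩ W) := by
    rw [← (he.2 V hV W hW hWV.symm).2]; exact ⟨hqV, h2⟩
  refine ⟨W, hW, hWV, ?_, ?_⟩
  · by_contra hn
    have : q ∈ {x | f x < f a ∨ x = b} := by
      refine convexHull_min ?_ (cvx f _ b hfb) h3
      rintro x ⟨hx, hx'⟩
      rcases hfV x hx with h | rfl | rfl
      · exact Or.inl h
      · exact absurd hx' hn
      · exact Or.inr rfl
    rcases this with h | h
    · linarith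
    · apply hab
      have : (1 / 2 : ℝ) • (a - b) = 0 := by
        rw [hq] at h; linear_combination (norm := module) h
      simpa [sub_eq_zero] using this
  · by_contra hn
    have : q ∈ {x | f x < f a ∨ x = a} := by
      refine convexHull_min ?_ (cvx f _ a rfl) h3
      rintro x ⟨hx, hx'⟩
      rcases hfV x hx with h | rfl | rfl
      · exact Or.inl h
      · exact Or.inr rfl
      · exact absurd hx' hn
    rcases this with h | h
    · linarith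
    · apply hab
      have : (1 / 2 : ℝ) • (b - a) = 0 := by
        rw [hq] at h; linear_combination (norm := module) h
      have h' : b = a := by simpa [sub_eq_zero] using this
      exact h'.symm


lemma isTri_lf (p : ℂ) (s t : ℤ × ℤ) (h : NN (t - s) = 1) : IsTri (P p 1 '' lf T0 s t) := by
  rw [isTri_iff, ← P_lf]
  refine ⟨_, _, ?_, rfl⟩
  have := norm_P p 1 (by simp) s t
  rw [h] at this
  have h0 := norm_nonneg (P p 1 t - P p 1 s)
  push_cast at this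
  nlinarith

lemma isHex_lf (p : ℂ) (s t : ℤ × ℤ) (h : NN (t - s) = 1) : IsHex (P p 1 '' lf H0 s t) := by
  rw [isHex_iff, ← P_lf]
  refine ⟨_, _, ?_, rfl⟩
  have := norm_P p 1 (by simp) s t
  rw [h] at this
  have h0 := norm_nonneg (P p 1 t - P p 1 s)
  push_cast at this
  nlinarith

lemma nb {B : Set (Set ℂ)} (hB : IsPatch B) (hc : Convex ℝ (body B)) (p : ℂ)
    (S : Finset (ℤ × ℤ)) (hS : P p 1 '' S ∈ B) (s t : ℤ × ℤ) (α β : ℤ)
    (h : s ∈ S ∧ t ∈ S ∧ NN (t - s) = 1 ∧ α * t.1 + β * t.2 = α * s.1 + β * s.2 ∧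
      ∀ m ∈ S, α * m.1 + β * m.2 < α * s.1 + β * s.2 ∨ m = s ∨ m = t)
    {y : ℂ} (hy : y ∈ body B) (hfy : F α β (P p 1 s) < F α β y) :
    ∃ S' ∈ [lf T0 s t, lf T0 t s, lf H0 s t, lf H0 t s], P p 1 '' S' ∈ B ∧ S' ≠ S := by
  obtain ⟨hs, ht, hN, hF, hm⟩ := h
  have hn : ‖P p 1 t - P p 1 s‖ = 1 := by
    have := norm_P p 1 (by simp) s t
    rw [hN] at this
    have h0 := norm_nonneg (P p 1 t - P p 1 s)
    push_cast at this
    nlinarith
  have hne : P p 1 s ≠ P p 1 t := by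
    intro h; rw [h] at hn; simp at hn
  obtain ⟨W, hW, hWV, ha, hb⟩ := nb0 hB.1 hB.2.1 hc hS (mem_image_of_mem _ hs)
    (mem_image_of_mem _ ht) hne (F α β) (by rw [F_P, F_P, hF]) (by
      rintro x ⟨m, hm', rfl⟩
      rcases hm m hm' with h | rfl | rfl
      · left; rw [F_P, F_P]
        have : ((α * m.1 + β * m.2 : ℤ) : ℝ) < ((α * s.1 + β * s.2 : ℤ) : ℝ) := by exact_mod_cast h
        linarith
      · simp
      · simp) hy hfy
  have key : ∀ S' : Finset (ℤ × ℤ), W = P p 1 '' S' → P p 1 '' S' ∈ B ∧ S' ≠ S := by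
    rintro S' rfl
    exact ⟨hW, fun h => hWV (by rw [h])⟩
  rcases hB.2.1.1 W hW with h | h
  · obtain ⟨a, u, hu, hW'⟩ := (isTri_iff W).1 h
    rcases cls T0 (by simp) hu hW' ha hb hn with h | h
    · rw [P_lf] at h; exact ⟨_, by simp, key _ h⟩
    · rw [P_lf] at h; exact ⟨_, by simp, key _ h⟩
  · obtain ⟨a, u, hu, hW'⟩ := (isHex_iff W).1 h
    rcases cls H0 (by simp) hu hW' ha hb hn with h | h
    · rw [P_lf] at h; exact ⟨_, by simp, key _ h⟩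
    · rw [P_lf] at h; exact ⟨_, by simp, key _ h⟩

lemma nos {B : Set (Set ℂ)} (hB : IsPatch B) (p : ℂ) (S S' : Finset (ℤ × ℤ))
    (hS : P p 1 '' S ∈ B) (hS' : P p 1 '' S' ∈ B) (c a b : ℤ × ℤ) (α β γ : ℤ)
    (h : S ≠ S' ∧ c ∈ S ∧ a ∈ S' ∧ b ∈ S' ∧ a + b = c + c ∧ γ < α * c.1 + β * c.2 ∧
      ∀ m ∈ S, m ∈ S' → α * m.1 + β * m.2 ≤ γ) : False := by
  obtain ⟨hne, hc, ha, hb, hab, hγ, hm⟩ := h
  have h1 := (hB.2.1.2 _ hS _ hS' (fun h => hne (PS_inj p h))).2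
  have h2 : P p 1 c ∈ convexHull ℝ (P p 1 '' S) ∩ convexHull ℝ (P p 1 '' S') := by
    refine ⟨subset_convexHull ℝ _ (mem_image_of_mem _ hc), ?_⟩
    have := convex_convexHull ℝ (P p 1 '' S') (subset_convexHull ℝ _ (mem_image_of_mem _ ha))
      (subset_convexHull ℝ _ (mem_image_of_mem _ hb)) (a := 1 / 2) (b := 1 / 2) (by norm_num)
      (by norm_num) (by norm_num)
    convert this using 1
    have e1 : (a.1 : ℂ) + b.1 = c.1 + c.1 := by exact_mod_cast congrArg Prod.fst hab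
    have e2 : (a.2 : ℂ) + b.2 = c.2 + c.2 := by exact_mod_cast congrArg Prod.snd hab
    simp only [P, Complex.real_smul]
    push_cast
    linear_combination (-1 / 2) * e1 - (1 / 2) * z6 * e2
  rw [h1] at h2
  have h3 : P p 1 c ∈ {x | F α β x ≤ F α β p + γ} := by
    refine convexHull_min ?_ (convex_halfSpace_le (F α β).isLinear _) h2
    rintro x ⟨⟨m, hm1, rfl⟩, ⟨m', hm2, h⟩⟩
    rw [P_inj p h] at hm2
    have : ((α * m.1 + β * m.2 : ℤ) : ℝ) ≤ γ := by exact_mod_cast hm m hm1 hm2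
    simp only [mem_ofPred_eq, F_P]; linarith
  simp only [mem_ofPred_eq, F_P] at h3
  have : (γ : ℝ) < ((α * c.1 + β * c.2 : ℤ) : ℝ) := by exact_mod_cast hγ
  linarith

lemma no3 {C : Set (Set ℂ)} (hC : C.encard ≤ 2) (p : ℂ) (S1 S2 S3 : Finset (ℤ × ℤ))
    (h1 : P p 1 '' S1 ∈ C) (h2 : P p 1 '' S2 ∈ C) (h3 : P p 1 '' S3 ∈ C)
    (h : S1 ≠ S2 ∧ S1 ≠ S3 ∧ S2 ≠ S3) : False := by
  have : ({P p 1 '' S1, P p 1 '' S2, P p 1 '' S3} : Set (Set ℂ)).encard = 3 :=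
    encard_eq_three.2 ⟨_, _, _, fun e => h.1 (PS_inj p e), fun e => h.2.1 (PS_inj p e),
      fun e => h.2.2 (PS_inj p e), rfl⟩
  have h4 : ({P p 1 '' S1, P p 1 '' S2, P p 1 '' S3} : Set (Set ℂ)) ⊆ C := by
    rintro x (rfl | rfl | rfl) <;> assumption
  have := this ▸ (encard_le_encard h4).trans hC
  exact absurd this (by decide)

lemma tri3 {B : Set (Set ℂ)} (hB : IsPatch B) (p : ℂ) (a1 b1 a2 b2 a3 b3 v : ℤ × ℤ)
    (h1 : P p 1 '' lf T0 a1 b1 ∈ B) (h2 : P p 1 '' lf T0 a2 b2 ∈ B) (h3 : P p 1 '' lf T0 a3 b3 ∈ B)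
    (h : NN (b1 - a1) = 1 ∧ NN (b2 - a2) = 1 ∧ NN (b3 - a3) = 1 ∧ v ∈ lf T0 a1 b1 ∧
      v ∈ lf T0 a2 b2 ∧ v ∈ lf T0 a3 b3 ∧ lf T0 a1 b1 ≠ lf T0 a2 b2 ∧ lf T0 a1 b1 ≠ lf T0 a3 b3 ∧
      lf T0 a2 b2 ≠ lf T0 a3 b3) : False :=
  no3 (hB.2.2.2 (P p 1 v)).1 p _ _ _ ⟨h1, isTri_lf _ _ _ h.1, mem_image_of_mem _ h.2.2.2.1⟩
    ⟨h2, isTri_lf _ _ _ h.2.1, mem_image_of_mem _ h.2.2.2.2.1⟩
    ⟨h3, isTri_lf _ _ _ h.2.2.1, mem_image_of_mem _ h.2.2.2.2.2.1⟩ h.2.2.2.2.2.2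

lemma hex3 {B : Set (Set ℂ)} (hB : IsPatch B) (p : ℂ) (a1 b1 a2 b2 a3 b3 v : ℤ × ℤ)
    (h1 : P p 1 '' lf H0 a1 b1 ∈ B) (h2 : P p 1 '' lf H0 a2 b2 ∈ B) (h3 : P p 1 '' lf H0 a3 b3 ∈ B)
    (h : NN (b1 - a1) = 1 ∧ NN (b2 - a2) = 1 ∧ NN (b3 - a3) = 1 ∧ v ∈ lf H0 a1 b1 ∧
      v ∈ lf H0 a2 b2 ∧ v ∈ lf H0 a3 b3 ∧ lf H0 a1 b1 ≠ lf H0 a2 b2 ∧ lf H0 a1 b1 ≠ lf H0 a3 b3 ∧
      lf H0 a2 b2 ≠ lf H0 a3 b3) : False :=
  no3 (hB.2.2.2 (P p 1 v)).2 p _ _ _ ⟨h1, isHex_lf _ _ _ h.1, mem_image_of_mem _ h.2.2.2.1⟩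
    ⟨h2, isHex_lf _ _ _ h.2.1, mem_image_of_mem _ h.2.2.2.2.1⟩
    ⟨h3, isHex_lf _ _ _ h.2.2.1, mem_image_of_mem _ h.2.2.2.2.2.1⟩ h.2.2.2.2.2.2

lemma memB {B : Set (Set ℂ)} {p : ℂ} {S : Finset (ℤ × ℤ)} (hS : P p 1 '' S ∈ B) {m : ℤ × ℤ}
    (hm : m ∈ S) : P p 1 m ∈ body B :=
  mem_biUnion hS (subset_convexHull ℝ _ (mem_image_of_mem _ hm))

lemma shift (p : ℂ) (d : ℤ × ℤ) (S S' : Finset (ℤ × ℤ)) (h : S.image (fun m => d + m) = S') :
    P (P p 1 d) 1 '' S = P p 1 '' S' := by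
  subst h
  simp only [Finset.coe_image, image_image]
  congr 1; ext m; simp [P]; ring

def HH (B : Set (Set ℂ)) (p : ℂ) : Prop :=
  P p 1 '' lf H0 (0, 0) (1, 0) ∈ B ∧ P p 1 '' lf H0 (1, 0) (0, 0) ∈ B
def TT (B : Set (Set ℂ)) (p : ℂ) : Prop :=
  P p 1 '' lf T0 (0, 0) (1, 0) ∈ B ∧ P p 1 '' lf T0 (1, 0) (0, 0) ∈ B

lemma step1 {B : Set (Set ℂ)} (hB : IsPatch B) (hc : Convex ℝ (body B)) (p : ℂ) (h : HH B p) :
    TT B (P p 1 (-1, 0)) := by
  constructor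
  · rw [shift p _ _ (lf T0 (0, 0) (-1, 1)) (by decide)]
    obtain ⟨S, hS, h1, h2⟩ := nb hB hc p _ h.1 (0, 0) (-1, 1) (-1) (-1) (by decide)
      (memB h.2 (m := (0, -1)) (by decide)) (by rw [F_P, F_P]; norm_num)
    simp only [List.mem_cons, List.not_mem_nil, or_false] at hS
    rcases hS with rfl | rfl | rfl | rfl
    · exact h1
    · exact (nos hB p _ _ h1 h.1 (0, 1) (1, 0) (-1, 2) 1 1 0 (by decide)).elim
    · exact (hex3 hB p _ _ _ _ _ _ (0, 0) h1 h.1 h.2 (by decide)).elim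
    · exact absurd (by decide) h2
  · rw [shift p _ _ (lf T0 (0, -1) (0, 0)) (by decide)]
    obtain ⟨S, hS, h1, h2⟩ := nb hB hc p _ h.2 (0, 0) (0, -1) (-1) 0 (by decide)
      (memB h.1 (m := (-1, 1)) (by decide)) (by rw [F_P, F_P]; norm_num)
    simp only [List.mem_cons, List.not_mem_nil, or_false] at hS
    rcases hS with rfl | rfl | rfl | rfl
    · exact (nos hB p _ _ h1 h.2 (1, -1) (1, 0) (1, -2) 1 0 0 (by decide)).elim
    · exact h1
    · exact absurd (by decide) h2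
    · exact (hex3 hB p _ _ _ _ _ _ (0, 0) h1 h.1 h.2 (by decide)).elim

lemma step2a {B : Set (Set ℂ)} (hB : IsPatch B) (hc : Convex ℝ (body B)) (p : ℂ) (h : TT B p)
    {y : ℂ} (hy : y ∈ body B) (hX : X y < X p) : P p 1 '' lf H0 (0, 0) (0, 1) ∈ B := by
  obtain ⟨S, hS, h1, h2⟩ := nb hB hc p _ h.1 (0, 0) (0, 1) (-1) 0 (by decide) hy
    (by rw [F_P]; simp [F_app]; linarith)
  simp only [List.mem_cons, List.not_mem_nil, or_false] at hS
  rcases hS with rfl | rfl | rfl | rfl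
  · exact (tri3 hB p _ _ _ _ _ _ (0, 0) h1 h.1 h.2 (by decide)).elim
  · exact absurd (by decide) h2
  · exact h1
  · exact (nos hB p _ _ h.1 h1 (1, 0) (0, 0) (2, 0) 1 0 0 (by decide)).elim

lemma step2b {B : Set (Set ℂ)} (hB : IsPatch B) (hc : Convex ℝ (body B)) (p : ℂ) (h : TT B p)
    {y : ℂ} (hy : y ∈ body B) (hX : X y + Y y < X p + Y p) :
    P p 1 '' lf H0 (1, -1) (0, 0) ∈ B := by
  obtain ⟨S, hS, h1, h2⟩ := nb hB hc p _ h.2 (0, 0) (1, -1) (-1) (-1) (by decide) hy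
    (by rw [F_P]; simp [F_app]; linarith)
  simp only [List.mem_cons, List.not_mem_nil, or_false] at hS
  rcases hS with rfl | rfl | rfl | rfl
  · exact absurd (by decide) h2
  · exact (tri3 hB p _ _ _ _ _ _ (0, 0) h1 h.1 h.2 (by decide)).elim
  · exact (nos hB p _ _ h.2 h1 (1, 0) (0, 0) (2, 0) 1 1 0 (by decide)).elim
  · exact h1

def Cone (B : Set (Set ℂ)) (p : ℂ) : Prop :=
  p ∈ body B ∧ ∀ y ∈ body B, X p ≤ X y ∧ X p + Y p ≤ X y + Y y

lemma step2 {B : Set (Set ℂ)} (hB : IsPatch B) (hc : Convex ℝ (body B)) (p : ℂ) (h : TT B p) :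
    HH B (P p 1 (-1, 0)) ∨ Cone B p := by
  by_cases hK : ∀ y ∈ body B, X p ≤ X y ∧ X p + Y p ≤ X y + Y y
  · right
    refine ⟨?_, hK⟩
    have := memB h.1 (m := (0, 0)) (by decide)
    simpa [P] using this
  left
  have key : P p 1 '' lf H0 (0, 0) (0, 1) ∈ B ∧ P p 1 '' lf H0 (1, -1) (0, 0) ∈ B := by
    push Not at hK
    obtain ⟨y, hy, hK⟩ := hK
    by_cases hX : X y < X p
    · have h1 := step2a hB hc p h hy hX
      exact ⟨h1, step2b hB hc p h (memB h1 (m := (-1, 0)) (by decide))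
        (by rw [X_P, Y_P]; norm_num)⟩
    · have h1 := step2b hB hc p h hy (hK (not_lt.1 hX))
      exact ⟨step2a hB hc p h (memB h1 (m := (-1, 0)) (by decide)) (by rw [X_P]; norm_num), h1⟩
  constructor
  · rw [shift p _ _ (lf H0 (0, 0) (0, 1)) (by decide)]; exact key.1
  · rw [shift p _ _ (lf H0 (1, -1) (0, 0)) (by decide)]; exact key.2

lemma corner {B : Set (Set ℂ)} (hB : IsPatch B) (hc : Convex ℝ (body B)) (p : ℂ) (h : HH B p) :
    ∃ q, Y q = Y p ∧ Cone B q := by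
  by_contra hn
  push Not at hn
  have h1 : ∀ n : ℕ, ∃ q, HH B q ∧ Y q = Y p ∧ X q ≤ X p - n := by
    intro n
    induction n with
    | zero => exact ⟨p, h, rfl, by simp⟩
    | succ n ih =>
      obtain ⟨q, hq, hY, hX⟩ := ih
      rcases step2 hB hc _ (step1 hB hc q hq) with h2 | h2
      · refine ⟨_, h2, by rw [Y_P, Y_P]; simpa using hY, ?_⟩
        rw [X_P, X_P]; push_cast; linarith
      · exact absurd h2 (hn _ (by rw [Y_P]; simpa using hY))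
  have hK : IsCompact (body B) :=
    hB.1.isCompact_biUnion fun W hW => (fin_of hB.2.1 hW).isCompact_convexHull ℝ
  have hXc : Continuous X := by unfold X; fun_prop
  obtain ⟨c, hc'⟩ := (hK.image hXc).bddBelow
  obtain ⟨n, hn'⟩ := exists_nat_gt (X p - c)
  obtain ⟨q, hq, -, hX⟩ := h1 n
  have := hc' (mem_image_of_mem X (memB hq.1 (m := (0, 0)) (by decide)))
  rw [X_P] at this
  simp at this
  linarith

theorem noconv {B : Set (Set ℂ)} (hB : IsPatch B) (hc : Convex ℝ (body B)) (p p' : ℂ)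
    (h : HH B p) (h' : HH B p') : Y p = Y p' := by
  obtain ⟨q, h1, h2, h3⟩ := corner hB hc p h
  obtain ⟨q', h1', h2', h3'⟩ := corner hB hc p' h'
  have := h3 _ h2'
  have := h3' _ h2
  linarith [this.1, this.2]

end Pool.Agent.H.MP_12bd27_co
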