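import Pool.Agent.H.MP_12bd27_co.A

set_option autoImplicit false

namespace Pool.Agent.H.MP_12bd27_co

open Set MeasureTheory

def base : Fin 3 → Finset (ℤ × ℤ) :=
  ![{(1, 0), (0, 1), (-1, 1), (-1, 0), (0, -1), (1, -1)}, {(1, 0), (0, 1), (1, 1)},
    {(1, 0), (1, -1), (2, -1)}]

def l1 : Fin 3 → ℤ := ![-1, 0, 1]
def u1 : Fin 3 → ℤ := ![1, 1, 2]
def l2 : Fin 3 → ℤ := ![-1, 0, -1]
def u2 : Fin 3 → ℤ := ![1, 1, 0]
def l3 : Fin 3 → ℤ := ![-1, 1, 0]
def u3 : Fin 3 → ℤ := ![1, 2, 1]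

def Box (k : Fin 3) (p : ℂ) : Set ℂ :=
  {x | X p + l1 k ≤ X x ∧ X x ≤ X p + u1 k ∧ Y p + l2 k ≤ Y x ∧ Y x ≤ Y p + u2 k ∧
    X p + Y p + l3 k ≤ X x + Y x ∧ X x + Y x ≤ X p + Y p + u3 k}

lemma X_lin (s t : ℝ) (x y : ℂ) : X (s • x + t • y) = s * X x + t * X y := by
  simp [X]; ring
lemma Y_lin (s t : ℝ) (x y : ℂ) : Y (s • x + t • y) = s * Y x + t * Y y := by
  simp [Y]; ring

lemma XY_ext {x y : ℂ} (h1 : X x = X y) (h2 : Y x = Y y) : x = y := by
  have := s3pos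
  have hi : x.im = y.im := by
    simp only [Y] at h2; field_simp at h2; exact h2
  apply Complex.ext _ hi
  simp only [X, hi] at h1; linarith

lemma cle {a u v s t : ℝ} (hu : a ≤ u) (hv : a ≤ v) (hs : 0 ≤ s) (ht : 0 ≤ t) (h : s + t = 1) :
    a ≤ s * u + t * v := by
  have : a = s * a + t * a := by rw [← add_mul, h, one_mul]
  nlinarith [mul_le_mul_of_nonneg_left hu hs, mul_le_mul_of_nonneg_left hv ht]
lemma cge {a u v s t : ℝ} (hu : u ≤ a) (hv : v ≤ a) (hs : 0 ≤ s) (ht : 0 ≤ t) (h : s + t = 1) :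
    s * u + t * v ≤ a := by
  have : a = s * a + t * a := by rw [← add_mul, h, one_mul]
  nlinarith [mul_le_mul_of_nonneg_left hu hs, mul_le_mul_of_nonneg_left hv ht]

lemma box_cvx (k : Fin 3) (p : ℂ) : Convex ℝ (Box k p) := by
  rintro x ⟨a1, a2, a3, a4, a5, a6⟩ y ⟨b1, b2, b3, b4, b5, b6⟩ s t hs ht h
  simp only [Box, mem_ofPred_eq, X_lin, Y_lin]
  refine ⟨cle a1 b1 hs ht h, cge a2 b2 hs ht h, cle a3 b3 hs ht h, cge a4 b4 hs ht h, ?_, ?_⟩
  · linarith [cle a5 b5 hs ht h]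
  · linarith [cge a6 b6 hs ht h]

lemma tri_mem {C : Set ℂ} (hC : Convex ℝ C) (p : ℂ) (m1 m2 m3 : ℤ × ℤ) (h1 : P p 1 m1 ∈ C)
    (h2 : P p 1 m2 ∈ C) (h3 : P p 1 m3 ∈ C) (x : ℂ) (a b : ℝ) (ha : 0 ≤ a) (hb : 0 ≤ b)
    (hab : a + b ≤ 1) (hX : X x = X p + a * m1.1 + b * m2.1 + (1 - a - b) * m3.1)
    (hY : Y x = Y p + a * m1.2 + b * m2.2 + (1 - a - b) * m3.2) : x ∈ C := by
  have := hC.sum_mem (t := Finset.univ) (w := ![a, b, 1 - a - b])
    (z := ![P p 1 m1, P p 1 m2, P p 1 m3]) (by intro i _; fin_cases i <;> simp <;> linarith)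
    (by simp [Fin.sum_univ_three]) (by intro i _; fin_cases i <;> simpa)
  convert this using 1
  simp only [Fin.sum_univ_three, Matrix.cons_val]
  have e : ∀ (g : ℂ → ℝ), (∀ s t x y, g (s • x + t • y) = s * g x + t * g y) →
      ∀ u v w : ℂ, g (a • u + b • v + (1 - a - b) • w) = a * g u + b * g v + (1 - a - b) * g w := by
    intro g hg u v w
    have := hg 1 (1 - a - b) (a • u + b • v) w
    rw [one_smul, hg] at this; linarith
  apply XY_ext
  · rw [e X X_lin, X_P, X_P, X_P, hX]; ring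
  · rw [e Y Y_lin, Y_P, Y_P, Y_P, hY]; ring

lemma base_bd : ∀ k : Fin 3, ∀ m ∈ base k, l1 k ≤ m.1 ∧ m.1 ≤ u1 k ∧ l2 k ≤ m.2 ∧ m.2 ≤ u2 k ∧
    l3 k ≤ m.1 + m.2 ∧ m.1 + m.2 ≤ u3 k := by decide

lemma P_box (k : Fin 3) (p : ℂ) (m : ℤ × ℤ) : P p 1 m ∈ Box k p ↔
    l1 k ≤ m.1 ∧ m.1 ≤ u1 k ∧ l2 k ≤ m.2 ∧ m.2 ≤ u2 k ∧ l3 k ≤ m.1 + m.2 ∧ m.1 + m.2 ≤ u3 k := by
  simp only [Box, mem_ofPred_eq, X_P, Y_P, add_le_add_iff_left, Int.cast_le]
  have e : X p + m.1 + (Y p + m.2) = X p + Y p + ((m.1 + m.2 : ℤ) : ℝ) := by push_cast; ring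
  simp only [e, add_le_add_iff_left, Int.cast_le]

lemma hull_eq (k : Fin 3) (p : ℂ) : convexHull ℝ (P p 1 '' base k) = Box k p := by
  apply Subset.antisymm
  · refine convexHull_min ?_ (box_cvx k p)
    rintro x ⟨m, hm, rfl⟩
    exact (P_box k p m).2 (base_bd k m hm)
  have hC := convex_convexHull ℝ (P p 1 '' base k)
  have hv : ∀ m ∈ base k, P p 1 m ∈ convexHull ℝ (P p 1 '' base k) := fun m hm =>
    subset_convexHull ℝ _ (mem_image_of_mem _ hm)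
  rintro x ⟨a1, a2, a3, a4, a5, a6⟩
  fin_cases k
  · simp [l1, u1, l2, u2, l3, u3] at a1 a2 a3 a4 a5 a6
    have h0 : P p 1 (0, 0) ∈ convexHull ℝ (P p 1 '' base 0) :=
      tri_mem hC p (1, 0) (-1, 0) (1, 0) (hv _ (by decide)) (hv _ (by decide)) (hv _ (by decide)) _
        (1 / 2) (1 / 2) (by norm_num) (by norm_num) (by norm_num) (by rw [X_P]; norm_num)
        (by rw [Y_P]; norm_num)
    have T : ∀ m1 ∈ base 0, ∀ m2 ∈ base 0, ∀ a b : ℝ, 0 ≤ a → 0 ≤ b → a + b ≤ 1 →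
        X x = X p + a * m1.1 + b * m2.1 → Y x = Y p + a * m1.2 + b * m2.2 →
        x ∈ convexHull ℝ (P p 1 '' base 0) := fun m1 h1 m2 h2 a b ha hb hab hX hY =>
      tri_mem hC p m1 m2 (0, 0) (hv _ h1) (hv _ h2) h0 x a b ha hb hab (by simpa using hX)
        (by simpa using hY)
    rcases le_total (X p) (X x) with hx | hx <;> rcases le_total (Y p) (Y x) with hy | hy
    · exact T (1, 0) (by decide) (0, 1) (by decide) (X x - X p) (Y x - Y p) (by linarith)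
        (by linarith) (by linarith) (by simp) (by simp)
    · rcases le_total (X p + Y p) (X x + Y x) with hz | hz
      · exact T (1, 0) (by decide) (1, -1) (by decide) (X x - X p + Y x - Y p) (Y p - Y x)
          (by linarith) (by linarith) (by linarith) (by simp; ring) (by simp)
      · exact T (0, -1) (by decide) (1, -1) (by decide) (X p - X x + Y p - Y x) (X x - X p)
          (by linarith) (by linarith) (by linarith) (by simp) (by simp; ring)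
    · rcases le_total (X p + Y p) (X x + Y x) with hz | hz
      · exact T (0, 1) (by decide) (-1, 1) (by decide) (X x - X p + Y x - Y p) (X p - X x)
          (by linarith) (by linarith) (by linarith) (by simp) (by simp; ring)
      · exact T (-1, 0) (by decide) (-1, 1) (by decide) (X p - X x + Y p - Y x) (Y x - Y p)
          (by linarith) (by linarith) (by linarith) (by simp; ring) (by simp)
    · exact T (-1, 0) (by decide) (0, -1) (by decide) (X p - X x) (Y p - Y x) (by linarith)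
        (by linarith) (by linarith) (by simp) (by simp)
  · simp [l1, u1, l2, u2, l3, u3] at a1 a2 a3 a4 a5 a6
    exact tri_mem hC p (1, 0) (0, 1) (1, 1) (hv _ (by decide)) (hv _ (by decide))
      (hv _ (by decide)) x (1 + Y p - Y x) (1 + X p - X x) (by linarith) (by linarith)
      (by linarith) (by simp; ring) (by simp; ring)
  · simp [l1, u1, l2, u2, l3, u3] at a1 a2 a3 a4 a5 a6
    exact tri_mem hC p (1, 0) (2, -1) (1, -1) (hv _ (by decide)) (hv _ (by decide))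
      (hv _ (by decide)) x (1 + Y x - Y p) (X x - X p - 1) (by linarith) (by linarith)
      (by linarith) (by simp; ring) (by simp; ring)

noncomputable def cen (a b : ℤ) : ℂ := P 0 1 (2 * a - b, 2 * b)
noncomputable def tile (τ : Fin 3 × ℤ × ℤ) : Set ℂ := P (cen τ.2.1 τ.2.2) 1 '' base τ.1

lemma X0 : X 0 = 0 := by simp [X]
lemma Y0 : Y 0 = 0 := by simp [Y]
lemma X_cen (a b : ℤ) : X (cen a b) = ((2 * a - b : ℤ) : ℝ) := by simp [cen, X_P, X0]
lemma Y_cen (a b : ℤ) : Y (cen a b) = ((2 * b : ℤ) : ℝ) := by simp [cen, Y_P, Y0]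

lemma P_cen (a b : ℤ) (m : ℤ × ℤ) :
    P 0 1 m = P (cen a b) 1 (m.1 - (2 * a - b), m.2 - 2 * b) := by
  simp [cen, P]; ring

lemma mem_tile (τ : Fin 3 × ℤ × ℤ) (m : ℤ × ℤ) :
    P 0 1 m ∈ tile τ ↔ (m.1 - (2 * τ.2.1 - τ.2.2), m.2 - 2 * τ.2.2) ∈ base τ.1 := by
  rw [P_cen τ.2.1 τ.2.2, tile, (P_inj _).mem_set_image]; simp

lemma tile_lat (τ : Fin 3 × ℤ × ℤ) {v : ℂ} (hv : v ∈ tile τ) : ∃ m, v = P 0 1 m := by
  obtain ⟨m, -, rfl⟩ := hv
  refine ⟨(m.1 + (2 * τ.2.1 - τ.2.2), m.2 + 2 * τ.2.2), ?_⟩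
  rw [P_cen τ.2.1 τ.2.2]; simp

lemma mem_base (k : Fin 3) (x y : ℤ) : (x, y) ∈ base k ↔
    (l1 k ≤ x ∧ x ≤ u1 k ∧ l2 k ≤ y ∧ y ≤ u2 k ∧ l3 k ≤ x + y ∧ x + y ≤ u3 k) ∧
      (x ≠ 0 ∨ y ≠ 0) := by
  fin_cases k <;> simp [base, l1, u1, l2, u2, l3, u3] <;> omega

lemma sep (k k' : Fin 3) (a b a' b' : ℤ) (h : (k, a, b) ≠ (k', a', b')) :
    (2 * a - b + u1 k ≤ 2 * a' - b' + l1 k' ∨ 2 * b + u2 k ≤ 2 * b' + l2 k' ∨
      2 * a + b + u3 k ≤ 2 * a' + b' + l3 k') ∨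
    (2 * a' - b' + u1 k' ≤ 2 * a - b + l1 k ∨ 2 * b' + u2 k' ≤ 2 * b + l2 k ∨
      2 * a' + b' + u3 k' ≤ 2 * a + b + l3 k) := by
  fin_cases k <;> fin_cases k' <;> simp [l1, u1, l2, u2, l3, u3] at h ⊢ <;> omega

lemma line0 (α β : ℤ) (v : ℂ) (hv : F α β v = 1) (s : ℝ) : volume {x | F α β x = s} = 0 := by
  have h1 : volume (LinearMap.ker (F α β) : Set ℂ) = 0 :=
    Measure.addHaar_submodule _ _ (by
      intro h
      have : v ∈ LinearMap.ker (F α β) := h ▸ Submodule.mem_top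
      rw [LinearMap.mem_ker, hv] at this; exact one_ne_zero this)
  rw [← h1, ← measure_preimage_add_right volume (-(s • v)) (LinearMap.ker (F α β) : Set ℂ)]
  congr 1; ext x
  simp only [mem_ofPred_eq, mem_preimage, SetLike.mem_coe, LinearMap.mem_ker, map_add, map_neg,
    map_smul, hv, smul_eq_mul]
  constructor <;> intro h <;> linarith

def Rd (g : ℝ) (r : ℤ) : Prop := ∀ n : ℤ, ((n : ℝ) ≤ g → n ≤ r) ∧ (g ≤ n → r ≤ n)

lemma Rd_fl (g : ℝ) : Rd g ⌊g⌋ := fun n =>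
  ⟨fun h => Int.le_floor.2 h, fun h => by exact_mod_cast (Int.floor_le g).trans h⟩
lemma Rd_cl (g : ℝ) : Rd g ⌈g⌉ := fun n =>
  ⟨fun h => by exact_mod_cast h.trans (Int.le_ceil g), fun h => Int.ceil_le.2 h⟩
lemma Rd_int (s : ℤ) : Rd s s := fun n =>
  ⟨fun h => by exact_mod_cast h, fun h => by exact_mod_cast h⟩
lemma Rd.add {g : ℝ} {r : ℤ} (h : Rd g r) (s : ℤ) : Rd (s + g) (s + r) := fun n =>
  ⟨fun h1 => by have := (h (n - s)).1 (by push_cast; linarith); omega,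
    fun h1 => by have := (h (n - s)).2 (by push_cast; linarith); omega⟩
lemma Rd.sub {g : ℝ} {r : ℤ} (h : Rd g r) (s : ℤ) : Rd (s - g) (s - r) := fun n =>
  ⟨fun h1 => by have := (h (s - n)).2 (by push_cast; linarith); omega,
    fun h1 => by have := (h (s - n)).1 (by push_cast; linarith); omega⟩

lemma ex_t (g : ℝ) : ∃ t : ℝ, 0 ≤ t ∧ t ≤ 1 ∧ g = t * ⌊g⌋ + (1 - t) * ⌈g⌉ := by
  have : g ∈ segment ℝ (⌊g⌋ : ℝ) ⌈g⌉ := by
    rw [segment_eq_Icc ((Int.floor_le g).trans (Int.le_ceil g))]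
    exact ⟨Int.floor_le g, Int.le_ceil g⟩
  obtain ⟨a, b, ha, hb, hab, h⟩ := this
  refine ⟨a, ha, by linarith, ?_⟩
  simp only [smul_eq_mul] at h
  rw [show 1 - a = b by linarith]; exact h.symm

def R3 (x : ℂ) (m : ℤ × ℤ) : Prop := Rd (X x) m.1 ∧ Rd (Y x) m.2 ∧ Rd (X x + Y x) (m.1 + m.2)

lemma round (x : ℂ) (s : ℤ) (h : X x = s ∨ Y x = s ∨ X x + Y x = s) :
    ∃ m m' : ℤ × ℤ, R3 x m ∧ R3 x m' ∧ x ∈ segment ℝ (P 0 1 m) (P 0 1 m') := by
  have key : ∀ (m m' : ℤ × ℤ) (t : ℝ), 0 ≤ t → t ≤ 1 → X x = t * m.1 + (1 - t) * m'.1 →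
      Y x = t * m.2 + (1 - t) * m'.2 → x ∈ segment ℝ (P 0 1 m) (P 0 1 m') := by
    intro m m' t h0 h1 hX hY
    refine ⟨t, 1 - t, h0, by linarith, by ring, XY_ext ?_ ?_⟩
    · rw [X_lin, X_P, X_P, X0, hX]; ring
    · rw [Y_lin, Y_P, Y_P, Y0, hY]; ring
  rcases h with h | h | h
  · obtain ⟨t, h0, h1, ht⟩ := ex_t (Y x)
    refine ⟨(s, ⌊Y x⌋), (s, ⌈Y x⌉), ⟨h ▸ Rd_int s, Rd_fl _, h ▸ (Rd_fl _).add s⟩,
      ⟨h ▸ Rd_int s, Rd_cl _, h ▸ (Rd_cl _).add s⟩, key _ _ t h0 h1 (by rw [h]; ring) ht⟩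
  · obtain ⟨t, h0, h1, ht⟩ := ex_t (X x)
    refine ⟨(⌊X x⌋, s), (⌈X x⌉, s), ⟨Rd_fl _, h ▸ Rd_int s, ?_⟩,
      ⟨Rd_cl _, h ▸ Rd_int s, ?_⟩, key _ _ t h0 h1 ht (by rw [h]; ring)⟩
    · rw [h, add_comm, add_comm _ s]; exact (Rd_fl _).add s
    · rw [h, add_comm, add_comm _ s]; exact (Rd_cl _).add s
  · obtain ⟨t, h0, h1, ht⟩ := ex_t (X x)
    have hY : Y x = s - X x := by linarith
    refine ⟨(⌊X x⌋, s - ⌊X x⌋), (⌈X x⌉, s - ⌈X x⌉), ⟨Rd_fl _, hY ▸ (Rd_fl _).sub s, ?_⟩,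
      ⟨Rd_cl _, hY ▸ (Rd_cl _).sub s, ?_⟩, key _ _ t h0 h1 ht (by push_cast; linarith)⟩
    · rw [h]; simpa using Rd_int s
    · rw [h]; simpa using Rd_int s

lemma box_int (k : Fin 3) (a b : ℤ) (x : ℂ) : x ∈ Box k (cen a b) ↔
    ((2 * a - b + l1 k : ℤ) : ℝ) ≤ X x ∧ X x ≤ ((2 * a - b + u1 k : ℤ) : ℝ) ∧
    ((2 * b + l2 k : ℤ) : ℝ) ≤ Y x ∧ Y x ≤ ((2 * b + u2 k : ℤ) : ℝ) ∧
    ((2 * a + b + l3 k : ℤ) : ℝ) ≤ X x + Y x ∧ X x + Y x ≤ ((2 * a + b + u3 k : ℤ) : ℝ) := by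
  simp only [Box, mem_ofPred_eq, X_cen, Y_cen]
  push_cast
  have e : (2 * a - b + 2 * b : ℝ) = 2 * a + b := by ring
  rw [e]

lemma lu0 : ∀ k : Fin 3,
    (l1 k = -1 ∧ u1 k = 1 ∧ l2 k = -1 ∧ u2 k = 1 ∧ l3 k = -1 ∧ u3 k = 1) ∨
    0 < l1 k ∨ 0 < l3 k := by decide

lemma e2e0 (k k' : Fin 3) (a b a' b' : ℤ)
    (h : 2 * a - b + u1 k ≤ 2 * a' - b' + l1 k' ∨ 2 * b + u2 k ≤ 2 * b' + l2 k' ∨
      2 * a + b + u3 k ≤ 2 * a' + b' + l3 k') :
    volume (Box k (cen a b) ∩ Box k' (cen a' b')) = 0 ∧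
      Box k (cen a b) ∩ Box k' (cen a' b') ⊆ convexHull ℝ (tile (k, a, b) ∩ tile (k', a', b')) := by
  have key : ∀ x ∈ Box k (cen a b) ∩ Box k' (cen a' b'),
      X x = ((2 * a - b + u1 k : ℤ) : ℝ) ∨ Y x = ((2 * b + u2 k : ℤ) : ℝ) ∨
        X x + Y x = ((2 * a + b + u3 k : ℤ) : ℝ) := by
    rintro x ⟨h1, h2⟩
    rw [box_int] at h1 h2
    rcases h with h | h | h
    · left; have := (Int.cast_le (R := ℝ)).2 h; linarith [h1.2.1, h2.1]
    · right; left; have := (Int.cast_le (R := ℝ)).2 h; linarith [h1.2.2.2.1, h2.2.2.1]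
    · right; right; have := (Int.cast_le (R := ℝ)).2 h; linarith [h1.2.2.2.2.2, h2.2.2.2.2.1]
  constructor
  · have h1 := line0 1 0 (P 0 1 (1, 0)) (by rw [F_P]; simp) ((2 * a - b + u1 k : ℤ) : ℝ)
    have h2 := line0 0 1 (P 0 1 (0, 1)) (by rw [F_P]; simp) ((2 * b + u2 k : ℤ) : ℝ)
    have h3 := line0 1 1 (P 0 1 (0, 1)) (by rw [F_P]; simp) ((2 * a + b + u3 k : ℤ) : ℝ)
    refine measure_mono_null ?_ (measure_union_null h1 (measure_union_null h2 h3))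
    intro x hx
    simpa [F_app] using key x hx
  intro x hx
  obtain ⟨m, m', hm, hm', hs⟩ : ∃ m m' : ℤ × ℤ, R3 x m ∧ R3 x m' ∧
      x ∈ segment ℝ (P 0 1 m) (P 0 1 m') := by
    rcases key x hx with h | h | h
    · exact round x _ (Or.inl h)
    · exact round x _ (Or.inr (Or.inl h))
    · exact round x _ (Or.inr (Or.inr h))
  have hin : ∀ r, R3 x r → P 0 1 r ∈ tile (k, a, b) ∩ tile (k', a', b') := by
    rintro r ⟨r1, r2, r3⟩
    obtain ⟨h1, h2⟩ := hx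
    rw [box_int] at h1 h2
    obtain ⟨a1, a2, a3, a4, a5, a6⟩ := h1
    obtain ⟨b1, b2, b3, b4, b5, b6⟩ := h2
    have a1 := (r1 _).1 a1; have a2 := (r1 _).2 a2; have a3 := (r2 _).1 a3
    have a4 := (r2 _).2 a4; have a5 := (r3 _).1 a5; have a6 := (r3 _).2 a6
    have b1 := (r1 _).1 b1; have b2 := (r1 _).2 b2; have b3 := (r2 _).1 b3
    have b4 := (r2 _).2 b4; have b5 := (r3 _).1 b5; have b6 := (r3 _).2 b6
    have c1 := lu0 k
    have c2 := lu0 k'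
    simp only [mem_inter_iff, mem_tile, mem_base]
    omega
  exact segment_subset_convexHull (hin _ hm) (hin _ hm') hs

lemma tile_inj : Function.Injective tile := by
  rintro ⟨k, a, b⟩ ⟨k', a', b'⟩ h
  by_contra hne
  have key : ∀ x y : ℤ, (x, y) ∈ base k →
      (x + (2 * a - b) - (2 * a' - b'), y + 2 * b - 2 * b') ∈ base k' := by
    intro x y hxy
    have := (mem_tile (k, a, b) (x + (2 * a - b), y + 2 * b)).2 (by simpa using hxy)
    rw [h, mem_tile] at this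
    exact this
  have hs := sep k k' a b a' b' hne
  simp only [mem_base] at key
  have k1 := key 1 0
  have k2 := key 0 1
  have k3 := key (-1) 1
  have k4 := key (-1) 0
  have k5 := key 1 1
  have k6 := key 1 (-1)
  have k7 := key 2 (-1)
  clear key h hne
  fin_cases k <;> fin_cases k' <;> simp [l1, u1, l2, u2, l3, u3] at * <;> omega

lemma not_tri_hex {V : Set ℂ} (h1 : IsTri V) (h2 : IsHex V) : False := by
  obtain ⟨a, u, hu, rfl⟩ := (isTri_iff V).1 h1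
  obtain ⟨b, w, hw, h⟩ := (isHex_iff _).1 h2
  obtain ⟨s, hs, e1⟩ : P b w (0, 0) ∈ P a u '' T0 := h ▸ mem_image_of_mem _ (by decide)
  obtain ⟨t, ht, e2⟩ : P b w (0, 2) ∈ P a u '' T0 := h ▸ mem_image_of_mem _ (by decide)
  have f1 := norm_P a u hu s t
  rw [e1, e2, norm_P b w hw] at f1
  have f2 : NN ((0, 2) - (0, 0)) = NN (t - s) := by exact_mod_cast f1
  have : ∀ s ∈ T0, ∀ t ∈ T0, NN ((0, 2) - (0, 0)) ≠ NN (t - s) := by decide
  exact this s hs t ht f2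

lemma tile_kind (τ : Fin 3 × ℤ × ℤ) : (τ.1 = 0 → IsHex (tile τ)) ∧ (τ.1 ≠ 0 → IsTri (tile τ)) := by
  obtain ⟨k, a, b⟩ := τ
  fin_cases k
  · refine ⟨fun _ => ?_, fun h => absurd rfl h⟩
    have : base 0 = lf H0 (0, -1) (1, -1) := by decide
    simp only [tile]; erw [this]; exact isHex_lf _ _ _ (by decide)
  · refine ⟨fun h => by simp at h, fun _ => ?_⟩
    have : base 1 = lf T0 (1, 1) (0, 1) := by decide
    simp only [tile]; erw [this]; exact isTri_lf _ _ _ (by decide)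
  · refine ⟨fun h => by simp at h, fun _ => ?_⟩
    have : base 2 = lf T0 (1, -1) (2, -1) := by decide
    simp only [tile]; erw [this]; exact isTri_lf _ _ _ (by decide)

lemma tile_tri (τ : Fin 3 × ℤ × ℤ) : IsTri (tile τ) ↔ τ.1 ≠ 0 :=
  ⟨fun h h0 => not_tri_hex h ((tile_kind τ).1 h0), (tile_kind τ).2⟩
lemma tile_hex (τ : Fin 3 × ℤ × ℤ) : IsHex (tile τ) ↔ τ.1 = 0 :=
  ⟨fun h => by_contra fun h0 => not_tri_hex ((tile_kind τ).2 h0) h, (tile_kind τ).1⟩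

lemma hull_tile (τ : Fin 3 × ℤ × ℤ) : convexHull ℝ (tile τ) = Box τ.1 (cen τ.2.1 τ.2.2) :=
  hull_eq _ _

lemma e2e : EdgeToEdge (range tile) := by
  constructor
  · rintro V ⟨τ, rfl⟩
    by_cases h : τ.1 = 0
    · exact Or.inr ((tile_kind τ).1 h)
    · exact Or.inl ((tile_kind τ).2 h)
  rintro V ⟨⟨k, a, b⟩, rfl⟩ W ⟨⟨k', a', b'⟩, rfl⟩ hne
  have hsub : convexHull ℝ (tile (k, a, b) ∩ tile (k', a', b')) ⊆
      convexHull ℝ (tile (k, a, b)) ∩ convexHull ℝ (tile (k', a', b')) :=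
    subset_inter (convexHull_mono inter_subset_left) (convexHull_mono inter_subset_right)
  rcases sep k k' a b a' b' (fun h => hne (by rw [h])) with h | h
  · have := e2e0 k k' a b a' b' h
    refine ⟨by rw [hull_tile, hull_tile]; exact this.1, Subset.antisymm ?_ hsub⟩
    rw [hull_tile, hull_tile]; exact this.2
  · have := e2e0 k' k a' b' a b h
    refine ⟨by rw [hull_tile, hull_tile, inter_comm]; exact this.1, Subset.antisymm ?_ hsub⟩
    rw [hull_tile, hull_tile, inter_comm, inter_comm (tile _)]; exact this.2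

lemma cover : body (range tile) = univ := by
  refine eq_univ_of_forall fun x => ?_
  suffices ∃ k a b, x ∈ Box k (cen a b) by
    obtain ⟨k, a, b, h⟩ := this
    exact mem_biUnion (mem_range_self (k, a, b)) (by rw [hull_tile]; exact h)
  set b := ⌊(Y x + 1) / 2⌋
  have b1 := Int.floor_le ((Y x + 1) / 2)
  have b2 := Int.lt_floor_add_one ((Y x + 1) / 2)
  rcases le_total (2 * b : ℝ) (Y x) with hy | hy
  · set a := ⌊(X x + b + 1) / 2⌋
    have a1 := Int.floor_le ((X x + b + 1) / 2)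
    have a2 := Int.lt_floor_add_one ((X x + b + 1) / 2)
    rcases le_total (X x + Y x) (2 * a + b + 1) with h | h
    · refine ⟨0, a, b, ?_⟩
      rw [box_int]; simp [l1, u1, l2, u2, l3, u3]
      refine ⟨?_, ?_, ?_, ?_, ?_, ?_⟩ <;> linarith
    · refine ⟨1, a, b, ?_⟩
      rw [box_int]; simp [l1, u1, l2, u2, l3, u3]
      refine ⟨?_, ?_, ?_, ?_, ?_, ?_⟩ <;> linarith
  · set a := ⌊(X x + Y x - b + 1) / 2⌋
    have a1 := Int.floor_le ((X x + Y x - b + 1) / 2)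
    have a2 := Int.lt_floor_add_one ((X x + Y x - b + 1) / 2)
    rcases le_total (X x) (2 * a - b + 1) with h | h
    · refine ⟨0, a, b, ?_⟩
      rw [box_int]; simp [l1, u1, l2, u2, l3, u3]
      refine ⟨?_, ?_, ?_, ?_, ?_, ?_⟩ <;> linarith
    · refine ⟨2, a, b, ?_⟩
      rw [box_int]; simp [l1, u1, l2, u2, l3, u3]
      refine ⟨?_, ?_, ?_, ?_, ?_, ?_⟩ <;> linarith

lemma two (Q : Set ℂ → Prop) (q : Fin 3 → Prop) (hQ : ∀ τ, Q (tile τ) ↔ q τ.1) (m : ℤ × ℤ)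
    (τ1 τ2 : Fin 3 × ℤ × ℤ) (hne : τ1 ≠ τ2)
    (h : ∀ k a b, q k ∧ (m.1 - (2 * a - b), m.2 - 2 * b) ∈ base k ↔
      (k, a, b) = τ1 ∨ (k, a, b) = τ2) :
    {V ∈ range tile | Q V ∧ P 0 1 m ∈ V}.encard = 2 := by
  rw [← encard_pair (fun e => hne (tile_inj e))]
  congr 1; ext V
  simp only [mem_ofPred_eq, mem_insert_iff, mem_singleton_iff]
  constructor
  · rintro ⟨⟨⟨k, a, b⟩, rfl⟩, h1, h2⟩
    rw [hQ] at h1; rw [mem_tile] at h2
    rcases (h k a b).1 ⟨h1, h2⟩ with e | e <;> simp [e]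
  · rintro (rfl | rfl)
    · have := (h τ1.1 τ1.2.1 τ1.2.2).2 (Or.inl rfl)
      exact ⟨mem_range_self _, (hQ _).2 this.1, (mem_tile _ _).2 this.2⟩
    · have := (h τ2.1 τ2.2.1 τ2.2.2).2 (Or.inr rfl)
      exact ⟨mem_range_self _, (hQ _).2 this.1, (mem_tile _ _).2 this.2⟩

lemma classes (k : Fin 3) (a b x y : ℤ) (h : (x - (2 * a - b), y - 2 * b) ∈ base k) :
    ∃ c d : ℤ, (x = 2 * c - d + 1 ∧ y = 2 * d) ∨ (x = 2 * c - d ∧ y = 2 * d + 1) ∨
      (x = 2 * c - d + 1 ∧ y = 2 * d + 1) := by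
  rw [mem_base] at h
  refine ⟨(x + y / 2) / 2, y / 2, ?_⟩
  fin_cases k <;> simp [l1, u1, l2, u2, l3, u3] at h <;> omega

theorem tiling : IsTiling (range tile) := by
  refine ⟨e2e, cover, ?_⟩
  rintro V ⟨⟨k, a, b⟩, rfl⟩ v hv
  obtain ⟨⟨x, y⟩, rfl⟩ := tile_lat _ hv
  rw [mem_tile] at hv
  obtain ⟨c, d, h⟩ := classes k a b x y hv
  clear hv
  rcases h with ⟨rfl, rfl⟩ | ⟨rfl, rfl⟩ | ⟨rfl, rfl⟩
  · refine ⟨two _ (· ≠ 0) tile_tri _ (1, c, d) (2, c, d) (by simp) ?_,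
      two _ (· = 0) tile_hex _ (0, c, d) (0, c + 1, d) (by simp) ?_⟩ <;> intro k a b <;>
      rw [mem_base] <;> fin_cases k <;> simp [l1, u1, l2, u2, l3, u3] <;> omega
  · refine ⟨two _ (· ≠ 0) tile_tri _ (1, c, d) (2, c, d + 1) (by simp) ?_,
      two _ (· = 0) tile_hex _ (0, c, d) (0, c, d + 1) (by simp) ?_⟩ <;> intro k a b <;>
      rw [mem_base] <;> fin_cases k <;> simp [l1, u1, l2, u2, l3, u3] <;> omega
  · refine ⟨two _ (· ≠ 0) tile_tri _ (1, c, d) (2, c, d + 1) (by simp) ?_,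
      two _ (· = 0) tile_hex _ (0, c + 1, d) (0, c + 1, d + 1) (by simp) ?_⟩ <;> intro k a b <;>
      rw [mem_base] <;> fin_cases k <;> simp [l1, u1, l2, u2, l3, u3] <;> omega

def AA : Set (Set ℂ) := {tile (0, 0, -1), tile (0, 0, 0), tile (0, 0, 1)}

noncomputable def wd (y : ℝ) : ℝ :=
  max (1 / 2) (max (1 - |y + 2| / 2) (max (1 - |y| / 2) (1 - |y - 2| / 2)))

lemma wd_pos (y : ℝ) : 0 < wd y := lt_of_lt_of_le (by norm_num) (le_max_left _ _)

lemma wd_cont : Continuous fun x : ℂ => wd (Y x) := by unfold wd Y; fun_prop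

noncomputable def sh : ℂ ≃ₜ ℂ where
  toFun x := (x.re * wd (Y x) : ℝ) + x.im * Complex.I
  invFun x := (x.re / wd (Y x) : ℝ) + x.im * Complex.I
  left_inv x := by
    have := wd_pos (Y x)
    apply Complex.ext <;> simp [Y] at this ⊢
    field_simp
  right_inv x := by
    have := wd_pos (Y x)
    apply Complex.ext <;> simp [Y] at this ⊢
    field_simp
  continuous_toFun := by
    have := wd_cont
    fun_prop
  continuous_invFun := by
    have := wd_cont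
    have : Continuous fun x : ℂ => x.re / wd (Y x) :=
      Complex.continuous_re.div this fun x => (wd_pos _).ne'
    fun_prop

def RR : Set ℂ := {x | |x.re| ≤ 1 ∧ |Y x| ≤ 3}

lemma X_re (x : ℂ) : X x = x.re - Y x / 2 := by simp [X, Y]; ring

lemma body_AA : body AA = {x | |x.re| ≤ wd (Y x) ∧ |Y x| ≤ 3} := by
  ext x
  simp only [body, AA, biUnion_insert, biUnion_singleton, mem_union, hull_tile, box_int,
    mem_ofPred_eq, X_re, wd, le_max_iff]
  simp [l1, u1, l2, u2, l3, u3]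
  generalize x.re = r
  generalize Y x = y
  constructor
  · rintro (h | h | h) <;> obtain ⟨a1, a2, a3, a4, a5, a6⟩ := h <;>
      refine ⟨?_, abs_le.2 ⟨by linarith, by linarith⟩⟩
    · right; left; cases abs_cases r <;> cases abs_cases (y + 2) <;> linarith
    · right; right; left; cases abs_cases r <;> cases abs_cases y <;> linarith
    · right; right; right; cases abs_cases r <;> cases abs_cases (y - 2) <;> linarith
  · rintro ⟨h, h3⟩
    rw [abs_le] at h3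
    have h4 := abs_nonneg r
    have h5 := le_abs_self r
    have h6 := neg_abs_le r
    rcases le_total y (-1) with c | c
    · left
      rcases h with h | h | h | h <;> cases abs_cases (y + 2) <;> cases abs_cases y <;>
        cases abs_cases (y - 2) <;> refine ⟨?_, ?_, ?_, ?_, ?_, ?_⟩ <;> linarith
    rcases le_total y 1 with c' | c'
    · right; left
      rcases h with h | h | h | h <;> cases abs_cases (y + 2) <;> cases abs_cases y <;>
        cases abs_cases (y - 2) <;> refine ⟨?_, ?_, ?_, ?_, ?_, ?_⟩ <;> linarith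
    · right; right
      rcases h with h | h | h | h <;> cases abs_cases (y + 2) <;> cases abs_cases y <;>
        cases abs_cases (y - 2) <;> refine ⟨?_, ?_, ?_, ?_, ?_, ?_⟩ <;> linarith

lemma sh_RR : sh '' RR = body AA := by
  rw [body_AA]
  have hY : ∀ x, Y (sh x) = Y x := fun x => by simp [sh, Y]
  have hr : ∀ x, (sh x).re = x.re * wd (Y x) := fun x => by simp [sh]
  ext x
  obtain ⟨x, rfl⟩ := sh.surjective x
  rw [sh.injective.mem_set_image]
  simp only [RR, mem_ofPred_eq, hY, hr, abs_mul, abs_of_pos (wd_pos _)]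
  rw [mul_le_iff_le_one_left (wd_pos _)]

lemma disk : Nonempty (body AA ≃ₜ Metric.closedBall (0 : ℂ) 1) := by
  have hY : Continuous Y := by unfold Y; fun_prop
  have hc : Convex ℝ RR := by
    rintro x ⟨a1, a2⟩ y ⟨b1, b2⟩ s t hs ht h
    rw [abs_le] at a1 a2 b1 b2
    simp only [RR, mem_ofPred_eq, abs_le, Complex.add_re, Complex.real_smul, Complex.mul_re,
      Complex.ofReal_re, Complex.ofReal_im, zero_mul, sub_zero]
    simp only [← Complex.real_smul, Y_lin]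
    exact ⟨⟨cle a1.1 b1.1 hs ht h, cge a1.2 b1.2 hs ht h⟩, cle a2.1 b2.1 hs ht h,
      cge a2.2 b2.2 hs ht h⟩
  have hcl : IsClosed RR :=
    (isClosed_le Complex.continuous_re.abs continuous_const).inter
      (isClosed_le hY.abs continuous_const)
  have hne : (interior RR).Nonempty := by
    refine ⟨0, mem_interior.2 ⟨{x | |x.re| < 1 ∧ |Y x| < 3}, fun x h => ⟨h.1.le, h.2.le⟩, ?_, ?_⟩⟩
    · exact (isOpen_lt Complex.continuous_re.abs continuous_const).inter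
        (isOpen_lt hY.abs continuous_const)
    · simp [Y0]
  have hb : Bornology.IsBounded RR := by
    refine (Metric.isBounded_closedBall (x := (0 : ℂ)) (r := 10)).subset ?_
    rintro x ⟨h1, h2⟩
    rw [mem_closedBall_zero_iff]
    have h3 := Complex.norm_le_abs_re_add_abs_im x
    have h4 : x.im = Y x * √3 / 2 := by have := s3pos; simp only [Y]; field_simp
    have h5 : √3 ≤ 2 := by nlinarith [s3, s3pos]
    have h6 : |x.im| ≤ 3 := by
      rw [h4, abs_div, abs_mul, abs_of_pos s3pos, abs_two]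
      nlinarith [abs_nonneg (Y x), s3pos]
    linarith
  obtain ⟨h, -, h2, -⟩ := exists_homeomorph_image_interior_closure_frontier_eq_unitBall hc hne hb
  rw [hcl.closure_eq] at h2
  exact ⟨((Homeomorph.setCongr sh_RR).symm.trans (sh.image RR).symm).trans
    ((h.image RR).trans (Homeomorph.setCongr h2))⟩

lemma AA_sub : AA ⊆ range tile := by
  rintro x (rfl | rfl | rfl) <;> exact mem_range_self _

lemma patch : IsPatch AA := by
  refine ⟨by simp [AA], ⟨fun V hV => e2e.1 V (AA_sub hV), fun V hV W hW =>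
    e2e.2 V (AA_sub hV) W (AA_sub hW)⟩, disk, fun v => ⟨?_, ?_⟩⟩
  · rcases (tris AA v).eq_empty_or_nonempty with h | ⟨V, h⟩
    · simp [h]
    · rw [← (tiling.2.2 V (AA_sub h.1) v h.2.2).1]
      exact encard_le_encard fun W hW => ⟨AA_sub hW.1, hW.2⟩
  · rcases (hexs AA v).eq_empty_or_nonempty with h | ⟨V, h⟩
    · simp [h]
    · rw [← (tiling.2.2 V (AA_sub h.1) v h.2.2).2]
      exact encard_le_encard fun W hW => ⟨AA_sub hW.1, hW.2⟩

theorem main : ∃ A, IsPatch A ∧ (∃ T, IsTiling T ∧ A ⊆ T) ∧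
    ¬ ∃ B, IsPatch B ∧ A ⊆ B ∧ Convex ℝ (body B) := by
  refine ⟨AA, patch, ⟨_, tiling, AA_sub⟩, ?_⟩
  rintro ⟨B, hB, hAB, hc⟩
  have t : ∀ (b : ℤ) (d : ℤ × ℤ) (S : Finset (ℤ × ℤ)), tile (0, 0, b) ∈ AA →
      S.image (fun m => d + m) = (base 0).image (fun m => (2 * 0 - b, 2 * b) + m) →
      P (P 0 1 d) 1 '' S ∈ B := by
    intro b d S h1 h2
    have := hAB h1
    rw [shift 0 d S _ h2]
    rwa [tile, cen, shift 0 _ _ _ rfl] at this
  have := noconv hB hc (P 0 1 (0, -1)) (P 0 1 (-1, 1))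
    ⟨t 0 _ _ (by simp [AA]) (by decide), t (-1) _ _ (by simp [AA]) (by decide)⟩
    ⟨t 1 _ _ (by simp [AA]) (by decide), t 0 _ _ (by simp [AA]) (by decide)⟩
  rw [Y_P, Y_P] at this
  norm_num at this

end Pool.Agent.H.MP_12bd27_co
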